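import Mathlib

set_option autoImplicit false

/-!
A majorant principle for exponentials of absolutely convergent trigonometric series, with respect
to a finite measure whose Fourier transform is nonnegative.
-/

namespace Pool.Agent.Lib.MP_bf61d2_nt.Hardy

open MeasureTheory

/-- The character. -/
noncomputable def ch (l t : ℝ) : ℂ := Complex.exp ((l * t : ℝ) * Complex.I)

lemma norm_ch (l t : ℝ) : ‖ch l t‖ = 1 := Complex.norm_exp_ofReal_mul_I _

variable {ι : Type*} {α : ι → ℂ} {β : ι → ℝ} (lam : ι → ℝ)

section

variable {ν : Measure ℝ} [IsFiniteMeasure ν]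

end

end Pool.Agent.Lib.MP_bf61d2_nt.Hardy
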