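import Mathlib
import Pool.Agent.Lib.MP_bf61d2_nt.Trim.Analytic
import Pool.Agent.Lib.MP_bf61d2_nt.Trim.Hardy.Major
import Pool.Agent.Lib.MP_bf61d2_nt.Trim.Line
import Pool.Agent.Lib.MP_bf61d2_nt.Trim.LocalCurve
import Pool.Agent.Lib.MP_bf61d2_nt.Trim.Places
import Pool.Agent.Lib.MP_bf61d2_nt.Trim.PrimeSum
import Pool.Agent.Lib.MP_bf61d2_nt.Trim.Structure

set_option autoImplicit false

/-!
The logarithm of the L-series in the half plane `re s > 3/2`.
-/

namespace NumberField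
end NumberField

namespace Pool.Agent.Lib.MP_bf61d2_nt.Hardy

open Filter Topology NumberField IsDedekindDomain MeasureTheory Set

variable {K : Type*} [Field K] [NumberField K] (W : WeierstrassCurve K)

/-- The logarithm of the L-series. -/
noncomputable def FL (s : ℂ) : ℂ := LSeries (fun n => (cp W n : ℂ)) (s - 1 / 2) + Rem W s

lemma exp_FL {s : ℂ} (hs : 3 / 2 < s.re) : Complex.exp (FL W s) = W.LSeries s :=
  (structure_formula W hs).symm

lemma differentiableOn_rho (v : HeightOneSpectrum (𝓞 K)) :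
    DifferentiableOn ℂ (rho W v) {s | 3 / 2 < s.re} := by
  have h0 : (nm v : ℂ) ≠ 0 := by
    have := nm_pos v
    exact_mod_cast this.ne'
  have hc : ∀ g : ℂ → ℂ, Differentiable ℂ g → Differentiable ℂ fun s => (nm v : ℂ) ^ (g s) :=
    fun g hg => fun s => (hg s).const_cpow (Or.inl h0)
  have hz : Differentiable ℂ (zv W v) := by
    unfold zv
    have := hc (fun s => -s) (by fun_prop)
    fun_prop
  unfold rho lam
  refine DifferentiableOn.sub (DifferentiableOn.neg ?_) ?_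
  · refine DifferentiableOn.clog (by fun_prop) fun s hs => ?_
    have h1 := norm_zv_lt W v (le_of_lt hs)
    rw [sub_eq_add_neg]
    exact Complex.mem_slitPlane_of_norm_lt_one (by rw [norm_neg]; linarith)
  · have := hc (fun s => -(s - 1 / 2)) (by fun_prop)
    fun_prop

lemma isOpen_half (a : ℝ) : IsOpen {s : ℂ | a < s.re} :=
  isOpen_lt continuous_const Complex.continuous_re

lemma differentiableOn_Rem : DifferentiableOn ℂ (Rem W) {s | 3 / 2 < s.re} :=
  Complex.differentiableOn_tsum_of_summable_norm summable_bound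
    (fun v => differentiableOn_rho W v) (isOpen_half _)
    fun v _ hs => norm_rho_le W v (le_of_lt hs)

lemma differentiableOn_FL : DifferentiableOn ℂ (FL W) {s | 3 / 2 < s.re} := by
  refine DifferentiableOn.add ?_ (differentiableOn_Rem W)
  have h1 : LSeries.abscissaOfAbsConv (fun n => (cp W n : ℂ)) ≤ (1 : ℝ) := by
    refine LSeries.abscissaOfAbsConv_le_of_forall_lt_LSeriesSummable fun y hy => ?_
    exact (hasSum_cp W (w := y) (by simpa using hy)).LSeriesSummable
  have h2 := LSeries_differentiableOn (fun n => (cp W n : ℂ))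
  refine DifferentiableOn.comp (t := {s : ℂ | LSeries.abscissaOfAbsConv
    (fun n => (cp W n : ℂ)) < s.re}) h2 (by fun_prop) fun s hs => ?_
  have hs' : (3 / 2 : ℝ) < s.re := hs
  have h3 : (1 : ℝ) < (s - 1 / 2).re := by
    have : (s - 1 / 2).re = s.re - 1 / 2 := by simp
    rw [this]; linarith
  exact lt_of_le_of_lt h1 (by exact_mod_cast h3)

lemma line_mem {δ : ℝ} (hδ : 0 < δ) (u : ℝ) :
    (3 / 2 : ℝ) < (((3 / 2 + δ : ℝ) : ℂ) + u * Complex.I).re := by
  simp [hδ]

lemma cpow_ch (δ u : ℝ) (v : HeightOneSpectrum (𝓞 K)) :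
    (nm v : ℂ) ^ (-((((3 / 2 + δ : ℝ) : ℂ) + u * Complex.I) - 1 / 2)) =
      (wp (1 + δ) v : ℂ) * ch (-Real.log (nm v)) u := by
  have hvpos : (0 : ℝ) < nm v := nm_pos' v
  have hv0 : ((nm v : ℕ) : ℂ) ≠ 0 := by exact_mod_cast hvpos.ne'
  have e : (-((((3 / 2 + δ : ℝ) : ℂ) + u * Complex.I) - 1 / 2)) =
      -((1 + δ : ℝ) : ℂ) + -(u * Complex.I) := by
    push_cast
    ring
  rw [e, Complex.cpow_add _ _ hv0]
  have e0 : (nm v : ℂ) ^ (-((1 + δ : ℝ) : ℂ)) = (wp (1 + δ) v : ℝ) := by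
    rw [wp, Complex.ofReal_cpow hvpos.le]
    push_cast
    rfl
  have e1 : (nm v : ℂ) ^ (-(u * Complex.I : ℂ)) = ch (-Real.log (nm v)) u := by
    rw [Complex.cpow_def_of_ne_zero hv0, ← Complex.ofReal_natCast, ← Complex.ofReal_log hvpos.le, ch]
    congr 1
    push_cast
    ring
  rw [e0, e1]

lemma FL_line {δ : ℝ} (hδ : 0 < δ) (u : ℝ) :
    FL W (((3 / 2 + δ : ℝ) : ℂ) + u * Complex.I) =
      ∑' v, ((cc W v * wp (1 + δ) v : ℝ) : ℂ) * ch (-Real.log (nm v)) u +
        Rem W (((3 / 2 + δ : ℝ) : ℂ) + u * Complex.I) := by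
  have hre : 1 < ((((3 / 2 + δ : ℝ) : ℂ) + u * Complex.I) - 1 / 2).re := by
    simp
    linarith
  rw [FL, (hasSum_cp W hre).LSeries_eq]
  congr 1
  refine tsum_congr fun v => ?_
  rw [cpow_ch]
  push_cast
  ring

/-- A crude bound away from the line. -/
lemma norm_FL_le {δ : ℝ} (hδ : 0 < δ) (u : ℝ) :
    ‖FL W (((3 / 2 + δ : ℝ) : ℂ) + u * Complex.I)‖ ≤ 2 * PS K (1 + δ) + RB K := by
  rw [FL_line W hδ]
  refine (norm_add_le _ _).trans (add_le_add ?_ (norm_Rem_le W (line_mem hδ u).le))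
  rw [PS, ← tsum_mul_left]
  refine tsum_of_norm_bounded ((summable_wp (K := K) (σ := 1 + δ) (by linarith)).mul_left 2).hasSum
    fun v => ?_
  rw [norm_mul, norm_ch, mul_one, Complex.norm_real, Real.norm_eq_abs, abs_mul,
    abs_of_pos (wp_pos _ _)]
  exact mul_le_mul_of_nonneg_right (abs_cc_le W v) (wp_pos _ _).le

lemma PS_anti {σ τ : ℝ} (hσ : 1 < σ) (h : σ ≤ τ) : PS K τ ≤ PS K σ := by
  refine (summable_wp (by linarith)).tsum_le_tsum (fun v => ?_) (summable_wp hσ)
  exact Real.rpow_le_rpow_of_exponent_le (by exact_mod_cast (one_lt_nm v).le) (by linarith)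

end Pool.Agent.Lib.MP_bf61d2_nt.Hardy
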